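import Mathlib

set_option autoImplicit false

/-! # Sums of functions of few bits -/

namespace Pool.Agent.U286.LD

open Finset

/-- `f` depends on at most `D` of the bits -/
def Junta {ι β : Type} (D : ℕ) (f : (ι → Bool) → β) : Prop :=
  ∃ S : Finset ι, S.card ≤ D ∧ ∀ x y : ι → Bool, (∀ i ∈ S, x i = y i) → f x = f y

/-- sums of functions of at most `D` bits -/
def Low (K : Type) [Field K] (ι : Type) (D : ℕ) : Submodule K ((ι → Bool) → K) :=
  Submodule.span K {f | Junta D f}

variable {K : Type} [Field K] {ι κ : Type}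

theorem low_mono {D E : ℕ} (h : D ≤ E) : Low K ι D ≤ Low K ι E := by
  apply Submodule.span_mono
  rintro f ⟨S, h1, h2⟩
  exact ⟨S, h1.trans h, h2⟩

theorem const_mem (c : K) (D : ℕ) : (fun _ => c) ∈ Low K ι D :=
  Submodule.subset_span ⟨∅, by simp, fun _ _ _ => rfl⟩

theorem mul_mem {D E : ℕ} {f g : (ι → Bool) → K} (hf : f ∈ Low K ι D) (hg : g ∈ Low K ι E) :
    f * g ∈ Low K ι (D + E) := by
  classical
  have h1 : f * g ∈ Low K ι D * Low K ι E := Submodule.mul_mem_mul hf hg
  unfold Low at h1
  rw [Submodule.span_mul_span] at h1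
  refine Submodule.span_mono ?_ h1
  rintro _ ⟨f, ⟨S, hS, hf⟩, g, ⟨T, hT, hg⟩, rfl⟩
  refine ⟨S ∪ T, (card_union_le S T).trans (Nat.add_le_add hS hT), fun x y hxy => ?_⟩
  show f x * g x = f y * g y
  rw [hf x y fun i hi => hxy i (mem_union_left _ hi), hg x y fun i hi => hxy i (mem_union_right _ hi)]

theorem prod_mem {α : Type} (s : Finset α) (f : α → (ι → Bool) → K) (D : α → ℕ)
    (h : ∀ i ∈ s, f i ∈ Low K ι (D i)) : (∏ i ∈ s, f i) ∈ Low K ι (∑ i ∈ s, D i) := by
  classical
  induction s using Finset.induction_on with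
  | empty => exact const_mem 1 _
  | insert a s ha ih =>
    rw [prod_insert ha, sum_insert ha]
    exact mul_mem (h a (mem_insert_self _ _)) (ih fun i hi => h i (mem_insert_of_mem hi))

/-- indicator functions of the values of a function with few values -/
theorem ind_mem [DecidableEq K] {D a : ℕ} {y : (ι → Bool) → K} (hy : y ∈ Low K ι D) (A : Finset K)
    (hA : A.card ≤ a + 1) (hyA : ∀ x, y x ∈ A) (c : K) (hc : c ∈ A) :
    (fun x => if y x = c then (1 : K) else 0) ∈ Low K ι (a * D) := by
  have h1 : (fun x => if y x = c then (1 : K) else 0) =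
      ∏ b ∈ A.erase c, (fun x => (c - b)⁻¹ * (y x - b)) := by
    funext x
    rw [Finset.prod_apply]
    by_cases h : y x = c
    · rw [if_pos h]
      symm
      apply Finset.prod_eq_one
      intro b hb
      rw [h]
      exact inv_mul_cancel₀ (sub_ne_zero.2 (ne_of_mem_erase hb).symm)
    · rw [if_neg h]
      symm
      apply Finset.prod_eq_zero (mem_erase.2 ⟨h, hyA x⟩)
      simp
  rw [h1]
  have h2 : ∑ b ∈ A.erase c, D ≤ a * D := by
    rw [sum_const, smul_eq_mul, card_erase_of_mem hc]
    exact Nat.mul_le_mul_right _ (by omega)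
  refine low_mono h2 (prod_mem _ _ _ fun b _ => ?_)
  have h3 : (fun x => (c - b)⁻¹ * (y x - b)) = (c - b)⁻¹ • (y - fun _ => b) := by
    funext x
    rfl
  rw [h3]
  exact Submodule.smul_mem _ _ (Submodule.sub_mem _ hy (const_mem b D))

/-- functions of few functions with few values -/
theorem comp_mem {J : Type} [Fintype J] {D a : ℕ} {y : J → (ι → Bool) → K}
    (hy : ∀ j, y j ∈ Low K ι D) (hA : ∀ j, ∃ A : Finset K, A.card ≤ a + 1 ∧ ∀ x, y j x ∈ A)
    (F : (J → K) → K) :
    (fun x => F fun j => y j x) ∈ Low K ι (Fintype.card J * a * D) := by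
  classical
  choose A hA1 hA2 using hA
  have h1 : (fun x => F fun j => y j x) =
      ∑ c ∈ Fintype.piFinset A, F c • ∏ j, (fun x => if y j x = c j then (1 : K) else 0) := by
    funext x
    rw [Finset.sum_apply]
    have hx : (fun j => y j x) ∈ Fintype.piFinset A := Fintype.mem_piFinset.2 fun j => hA2 j x
    rw [Finset.sum_eq_single_of_mem _ hx]
    · rw [Pi.smul_apply, Finset.prod_apply, Finset.prod_eq_one, smul_eq_mul, mul_one]
      intro j _
      rw [if_pos rfl]
    · intro c _ hc
      obtain ⟨j, hj⟩ : ∃ j, y j x ≠ c j := by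
        by_contra h
        push Not at h
        exact hc (funext fun j => (h j).symm)
      rw [Pi.smul_apply, Finset.prod_apply, Finset.prod_eq_zero (mem_univ j), smul_zero]
      rw [if_neg hj]
  rw [h1]
  refine Submodule.sum_mem _ fun c hc => Submodule.smul_mem _ _ ?_
  have h2 : Fintype.card J * a * D = ∑ _j : J, a * D := by
    rw [sum_const, smul_eq_mul, card_univ, mul_assoc]
  rw [h2]
  exact prod_mem _ _ _ fun j _ => ind_mem (hy j) (A j) (hA1 j) (hA2 j) (c j)
    (Fintype.mem_piFinset.1 hc j)

/-- the sign of a string -/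
def sgn (K : Type) [Field K] {ι : Type} [Fintype ι] (x : ι → Bool) : K := ∏ i, if x i then -1 else 1

theorem alt_sum [Fintype ι] [DecidableEq ι] {D : ℕ} (hD : D < Fintype.card ι) {f : (ι → Bool) → K}
    (hf : f ∈ Low K ι D) : ∑ x, sgn K x * f x = 0 := by
  unfold Low at hf
  induction hf using Submodule.span_induction with
  | mem f h =>
    obtain ⟨S, hS, h⟩ := h
    obtain ⟨i, hi⟩ : ∃ i, i ∉ S := by
      by_contra h
      push Not at h
      have : S = univ := eq_univ_of_forall h
      rw [this, card_univ] at hS
      omega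
    have hs : ∀ x : ι → Bool, sgn K (Function.update x i (!x i)) = - sgn K x := by
      intro x
      unfold sgn
      rw [← Finset.mul_prod_erase _ _ (mem_univ i), ← Finset.mul_prod_erase univ
        (fun j => if x j then (-1 : K) else 1) (mem_univ i)]
      have h2 : ∏ j ∈ univ.erase i, (if Function.update x i (!x i) j then (-1 : K) else 1) =
          ∏ j ∈ univ.erase i, (if x j then (-1 : K) else 1) := by
        refine Finset.prod_congr rfl fun j hj => ?_
        rw [Function.update_of_ne (ne_of_mem_erase hj)]
      rw [h2, Function.update_self]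
      cases x i <;> simp
    refine Finset.sum_involution (fun (x : ι → Bool) _ => Function.update x i (!x i)) ?_ ?_ ?_ ?_
    · intro x _
      rw [hs, h (Function.update x i (!x i)) x]
      · ring
      · intro j hj
        rw [Function.update_of_ne]
        rintro rfl
        exact hi hj
    · intro x _ _ h2
      have h3 := congrFun h2 i
      rw [Function.update_self] at h3
      cases hx : x i <;> simp [hx] at h3
    · intro x _
      exact mem_univ _
    · intro x _
      simp
  | zero => simp
  | add f g _ _ hf hg =>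
    simp only [Pi.add_apply, mul_add, Finset.sum_add_distrib]
    rw [hf, hg, add_zero]
  | smul c f _ hf =>
    simp only [Pi.smul_apply, smul_eq_mul]
    have : ∀ x : ι → Bool, sgn K x * (c * f x) = c * (sgn K x * f x) := fun x => by ring
    simp only [this]
    rw [← Finset.mul_sum, hf, mul_zero]

/-- the disjunction of all bits has full degree -/
theorem or_full [Fintype ι] [DecidableEq ι] {D : ℕ} {f : (ι → Bool) → K} (hf : f ∈ Low K ι D)
    (h0 : f (fun _ => false) = 0) (h1 : ∀ x, x ≠ (fun _ => false) → f x = 1) :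
    Fintype.card ι ≤ D := by
  by_contra h
  push Not at h
  have h2 := alt_sum h hf
  have h3 := alt_sum (K := K) h (const_mem 1 D)
  have h4 : ∑ x : ι → Bool, sgn K x * (fun _ : ι → Bool => (1 : K)) x =
      ∑ x, sgn K x * f x + sgn K (fun _ : ι => false) := by
    rw [← Finset.add_sum_erase _ _ (mem_univ (fun _ : ι => false)),
      ← Finset.add_sum_erase univ (fun x => sgn K x * f x) (mem_univ (fun _ : ι => false)), h0]
    have h5 : ∑ x ∈ univ.erase (fun _ : ι => false), sgn K x * f x =
        ∑ x ∈ univ.erase (fun _ : ι => false), sgn K x * (1 : K) := by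
      refine Finset.sum_congr rfl fun x hx => ?_
      rw [h1 x (ne_of_mem_erase hx)]
    rw [h5]
    ring
  rw [h3, h2, zero_add] at h4
  have h5 : sgn K (fun _ : ι => false) = 1 := by
    unfold sgn
    simp
  rw [h5] at h4
  exact zero_ne_one h4

/-- substitutions in which every bit depends on at most one new bit -/
theorem sub_mem {D : ℕ} {f : (κ → Bool) → K} (hf : f ∈ Low K κ D) (s : (ι → Bool) → κ → Bool)
    (τ : κ → Option ι) (hs : ∀ e z z', (∀ i, τ e = some i → z i = z' i) → s z e = s z' e) :
    (fun z => f (s z)) ∈ Low K ι D := by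
  classical
  unfold Low at hf
  induction hf using Submodule.span_induction with
  | mem f h =>
    obtain ⟨S, hS, h⟩ := h
    refine Submodule.subset_span ⟨S.biUnion fun e => (τ e).toFinset, ?_, fun z z' hz => ?_⟩
    · refine (card_biUnion_le).trans ((sum_le_card_nsmul _ _ 1 fun e _ => ?_).trans ?_)
      · cases τ e <;> simp
      · simpa using hS
    · apply h
      intro e he
      apply hs
      intro i hi
      apply hz
      rw [mem_biUnion]
      exact ⟨e, he, by rw [hi]; simp⟩
  | zero => exact Submodule.zero_mem _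
  | add f g _ _ hf hg => exact Submodule.add_mem _ hf hg
  | smul c f _ hf => exact Submodule.smul_mem _ c hf

end Pool.Agent.U286.LD
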