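import Pool.Agent.R562.QH.Fin
import Pool.Agent.U286.LD.Core

set_option autoImplicit false

/-! # Definitions: sums of local functions, reductions -/

namespace Pool.Agent.U286.LD

open Finset Pool.Agent.R562.QH

/-- degree at most `D`: `f` is a sum, over the field `K`, of arbitrarily many functions each of which
depends on at most `D` of the bits -/
def Deg (K : Type) [Field K] {ι : Type} (D : ℕ) (f : (ι → Bool) → K) : Prop :=
  ∃ (L : ℕ) (w : Fin L → (ι → Bool) → K), (∀ l, Junta D (w l)) ∧ ∀ x, f x = ∑ l, w l x

open Classical in
/-- There is a truth-table reduction with `Q` questions to the satisfiability of formulas in `v`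
variables with at most `d` literals per clause, whose output bits `R x (i, c)` (does the clause `c`
belong to the `i`-th formula?) have degree at most `D` over `K`, and which is right on all graphs with
`n` vertices that have a clique with `k` vertices or have no edges at all. -/
def HasReduction (K : Type) [Field K] (n k d Q v D : ℕ) : Prop :=
  ∃ (R : (Pairs n → Bool) → Fin Q × Clause v d → Bool) (ev : (Fin Q → Bool) → Bool),
    (∀ j, Deg K D fun x => if R x j = true then (1 : K) else 0) ∧
    ∀ x, (¬ (graph x).CliqueFree k ∨ x = empt n) →
      (ev (fun i => decide (Sat fun c => R x (i, c))) = true ↔ ¬ (graph x).CliqueFree k)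

/-- the value of the linear form with the coefficients `c` modulo `m` -/
def form {n m : ℕ} (c : Pairs n → ZMod m) (x : Pairs n → Bool) : ZMod m :=
  ∑ e, if x e = true then c e else 0

open Classical in
/-- There is a truth-table reduction with `Q` questions to the satisfiability of formulas in `v`
variables with at most `d` literals per clause, each of whose output bits is a function of one linear
form modulo `m` in the adjacency bits, and which is right on all graphs with `n` vertices that have a
clique with `k` vertices or have no edges at all. -/
def HasModReduction (m n k d Q v : ℕ) : Prop :=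
  ∃ (R : (Pairs n → Bool) → Fin Q × Clause v d → Bool) (ev : (Fin Q → Bool) → Bool),
    (∀ j, ∃ (c : Pairs n → ZMod m) (A : ZMod m → Bool), ∀ x, R x j = A (form c x)) ∧
    ∀ x, (¬ (graph x).CliqueFree k ∨ x = empt n) →
      (ev (fun i => decide (Sat fun c => R x (i, c))) = true ↔ ¬ (graph x).CliqueFree k)

end Pool.Agent.U286.LD
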