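import Pool.Agent.U286.LD.Def

set_option autoImplicit false

/-! # Many edge-disjoint cliques -/

namespace Pool.Agent.U286.LD

open Finset Pool.Agent.R562.QH

/-- the vertex number `i` of a line -/
def vert (p a b i : ℕ) : ℕ := i * p + (a * i + b) % p

theorem vert_div {p a b i : ℕ} (hp : 0 < p) : vert p a b i / p = i := by
  unfold vert
  rw [Nat.add_comm, Nat.add_mul_div_right _ _ hp, Nat.div_eq_of_lt (Nat.mod_lt _ hp), zero_add]

theorem vert_mod {p a b i : ℕ} : vert p a b i % p = (a * i + b) % p := by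
  unfold vert
  rw [Nat.add_comm, Nat.add_mul_mod_self_right, Nat.mod_mod]

theorem vert_lt {n k p a b i : ℕ} (hp : 0 < p) (hkp : k * p ≤ n) (hi : i < k) :
    vert p a b i < n := by
  have h1 := Nat.mod_lt (a * i + b) hp
  have h2 : (i + 1) * p ≤ k * p := Nat.mul_le_mul_right _ hi
  unfold vert
  rw [add_mul, one_mul] at h2
  omega

/-- a line -/
def line (n k p : ℕ) (l : Fin p × Fin p) : Finset (Fin n) :=
  univ.filter fun u : Fin n => ∃ i, i < k ∧ u.1 = vert p l.1 l.2 i

theorem card_line {n k p : ℕ} (hp : 0 < p) (hkp : k * p ≤ n) (l : Fin p × Fin p) :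
    (line n k p l).card = k := by
  have h := Finset.card_bij (s := range k) (t := line n k p l)
    (fun i hi => (⟨vert p l.1 l.2 i, vert_lt hp hkp (mem_range.1 hi)⟩ : Fin n)) ?_ ?_ ?_
  · rw [← h, card_range]
  · intro i hi
    exact mem_filter.2 ⟨mem_univ _, i, mem_range.1 hi, rfl⟩
  · intro i hi j hj hij
    have h1 := congrArg Fin.val hij
    have h2 : vert p l.1 l.2 i / p = vert p l.1 l.2 j / p := congrArg (· / p) h1
    rwa [vert_div hp, vert_div hp] at h2
  · intro u hu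
    obtain ⟨i, hi, h1⟩ := (mem_filter.1 hu).2
    exact ⟨i, mem_range.2 hi, Fin.ext h1.symm⟩

theorem line_unique {n k p : ℕ} (hp : p.Prime) (hk : k ≤ p) {l l' : Fin p × Fin p} {u w : Fin n}
    (h1 : u ∈ line n k p l) (h2 : w ∈ line n k p l) (h3 : u ∈ line n k p l')
    (h4 : w ∈ line n k p l') (huw : u ≠ w) : l = l' := by
  have : Fact p.Prime := ⟨hp⟩
  obtain ⟨i, hi, e1⟩ := (mem_filter.1 h1).2
  obtain ⟨j, hj, e2⟩ := (mem_filter.1 h2).2
  obtain ⟨i', hi', e3⟩ := (mem_filter.1 h3).2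
  obtain ⟨j', hj', e4⟩ := (mem_filter.1 h4).2
  have q1 : i = i' := by rw [← vert_div (p := p) (a := l.1) (b := l.2) (i := i) hp.pos, ← e1, e3,
    vert_div hp.pos]
  have q2 : j = j' := by rw [← vert_div (p := p) (a := l.1) (b := l.2) (i := j) hp.pos, ← e2, e4,
    vert_div hp.pos]
  subst q1 q2
  have hij : i ≠ j := by
    rintro rfl
    exact huw (Fin.ext (e1.trans e2.symm))
  have m1 : (l.1.1 * i + l.2.1) % p = (l'.1.1 * i + l'.2.1) % p := by
    rw [← vert_mod, ← vert_mod, ← e1, ← e3]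
  have m2 : (l.1.1 * j + l.2.1) % p = (l'.1.1 * j + l'.2.1) % p := by
    rw [← vert_mod, ← vert_mod, ← e2, ← e4]
  have z1 : (l.1.1 : ZMod p) * i + l.2.1 = l'.1.1 * i + l'.2.1 := by
    have := (ZMod.natCast_eq_natCast_iff' _ _ p).2 m1
    exact_mod_cast this
  have z2 : (l.1.1 : ZMod p) * j + l.2.1 = l'.1.1 * j + l'.2.1 := by
    have := (ZMod.natCast_eq_natCast_iff' _ _ p).2 m2
    exact_mod_cast this
  have hne : (i : ZMod p) - j ≠ 0 := by
    rw [sub_ne_zero]
    intro h
    have := (ZMod.natCast_eq_natCast_iff' i j p).1 h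
    rw [Nat.mod_eq_of_lt (hi.trans_le hk), Nat.mod_eq_of_lt (hj.trans_le hk)] at this
    exact hij this
  have z3 : ((l.1.1 : ZMod p) - l'.1.1) * (i - j) = 0 := by linear_combination z1 - z2
  have z4 : (l.1.1 : ZMod p) = l'.1.1 := by
    rcases mul_eq_zero.1 z3 with h | h
    · exact sub_eq_zero.1 h
    · exact absurd h hne
  have z5 : (l.2.1 : ZMod p) = l'.2.1 := by
    rw [z4] at z1
    exact add_left_cancel z1
  have c1 := (ZMod.natCast_eq_natCast_iff' _ _ p).1 z4
  have c2 := (ZMod.natCast_eq_natCast_iff' _ _ p).1 z5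
  rw [Nat.mod_eq_of_lt l.1.2, Nat.mod_eq_of_lt l'.1.2] at c1
  rw [Nat.mod_eq_of_lt l.2.2, Nat.mod_eq_of_lt l'.2.2] at c2
  exact Prod.ext (Fin.ext c1) (Fin.ext c2)

open Classical in
/-- the union of the lines with `z l = true` -/
noncomputable def uni (n k p : ℕ) (z : Fin p × Fin p → Bool) : Pairs n → Bool :=
  fun e => decide (∃ l, z l = true ∧ e.1.1 ∈ line n k p l ∧ e.1.2 ∈ line n k p l)

open Classical in
/-- the line of a pair -/
noncomputable def tau (n k p : ℕ) (e : Pairs n) : Option (Fin p × Fin p) :=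
  if h : ∃ l, e.1.1 ∈ line n k p l ∧ e.1.2 ∈ line n k p l then some h.choose else none

theorem uni_local {n k p : ℕ} (hp : p.Prime) (hk : k ≤ p) (e : Pairs n)
    (z z' : Fin p × Fin p → Bool) (h : ∀ i, tau n k p e = some i → z i = z' i) :
    uni n k p z e = uni n k p z' e := by
  have key : ∀ z z' : Fin p × Fin p → Bool, (∀ i, tau n k p e = some i → z i = z' i) →
      (∃ l, z l = true ∧ e.1.1 ∈ line n k p l ∧ e.1.2 ∈ line n k p l) →
      ∃ l, z' l = true ∧ e.1.1 ∈ line n k p l ∧ e.1.2 ∈ line n k p l := by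
    rintro z z' h ⟨l, h1, h2⟩
    have h3 : ∃ l, e.1.1 ∈ line n k p l ∧ e.1.2 ∈ line n k p l := ⟨l, h2⟩
    have h4 : h3.choose = l :=
      line_unique hp hk h3.choose_spec.1 h3.choose_spec.2 h2.1 h2.2 (ne_of_lt e.2)
    have h5 : tau n k p e = some l := by
      unfold tau
      rw [dif_pos h3, h4]
    exact ⟨l, by rw [← h l h5, h1], h2⟩
  unfold uni
  rw [decide_eq_decide]
  exact ⟨key z z' h, key z' z fun i hi => (h i hi).symm⟩

theorem uni_zero (n k p : ℕ) : uni n k p (fun _ => false) = empt n := by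
  funext e
  unfold uni empt
  simp

theorem uni_clique {n k p : ℕ} (hp : 0 < p) (hkp : k * p ≤ n) {z : Fin p × Fin p → Bool}
    {l : Fin p × Fin p} (hl : z l = true) : ¬ (graph (uni n k p z)).CliqueFree k := by
  intro h
  refine h (line n k p l) ⟨?_, card_line hp hkp l⟩
  intro i hi j hj hij
  rcases lt_or_gt_of_ne hij with h | h
  · exact Or.inl ⟨h, by unfold uni; exact decide_eq_true ⟨l, hl, hi, hj⟩⟩
  · exact Or.inr ⟨h, by unfold uni; exact decide_eq_true ⟨l, hl, hj, hi⟩⟩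

theorem Deg.mem {K : Type} [Field K] {ι : Type} {D : ℕ} {f : (ι → Bool) → K} (h : Deg K D f) :
    f ∈ Low K ι D := by
  obtain ⟨L, w, h1, h2⟩ := h
  have : f = ∑ l, w l := by
    funext x
    rw [h2, Finset.sum_apply]
  rw [this]
  exact Submodule.sum_mem _ fun l _ => Submodule.subset_span (h1 l)

/-- compressions of the gap clique problem, with a prime -/
theorem compress {K : Type} [Field K] {n k p : ℕ} (hp : p.Prime) (hk : k ≤ p) (hkp : k * p ≤ n)
    {J : Type} [Fintype J] (D a : ℕ) (y : J → (Pairs n → Bool) → K) (hy : ∀ j, Deg K D (y j))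
    (hA : ∀ j, ∃ A : Finset K, A.card ≤ a + 1 ∧ ∀ x, y j x ∈ A) (F : (J → K) → Bool)
    (h0 : F (fun j => y j (empt n)) = false)
    (h1 : ∀ x, ¬ (graph x).CliqueFree k → F (fun j => y j x) = true) :
    p ^ 2 ≤ Fintype.card J * a * D := by
  classical
  have h2 := comp_mem (fun j => (hy j).mem) hA (fun c => if F c = true then (1 : K) else 0)
  have h3 := sub_mem h2 (uni n k p) (tau n k p) fun e z z' h => uni_local hp hk e z z' h
  have h4 := or_full h3 (by
    show (if F (fun j => y j (uni n k p fun _ => false)) = true then (1 : K) else 0) = 0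
    rw [uni_zero, h0]
    simp) (by
    intro z hz
    obtain ⟨l, hl⟩ : ∃ l, z l = true := by
      by_contra h
      push Not at h
      exact hz (funext fun l => by simpa using h l)
    show (if F (fun j => y j (uni n k p z)) = true then (1 : K) else 0) = 1
    rw [if_pos (h1 _ (uni_clique hp.pos hkp hl))])
  rw [Fintype.card_prod, Fintype.card_fin] at h4
  calc p ^ 2 = p * p := by ring
    _ ≤ _ := h4

/-- compressions of the gap clique problem -/
theorem compress' {K : Type} [Field K] {n k : ℕ} (hk : 1 ≤ k) (hn : 2 * k ^ 2 ≤ n)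
    {J : Type} [Fintype J] (D a : ℕ) (y : J → (Pairs n → Bool) → K) (hy : ∀ j, Deg K D (y j))
    (hA : ∀ j, ∃ A : Finset K, A.card ≤ a + 1 ∧ ∀ x, y j x ∈ A) (F : (J → K) → Bool)
    (h0 : F (fun j => y j (empt n)) = false)
    (h1 : ∀ x, ¬ (graph x).CliqueFree k → F (fun j => y j x) = true) :
    n ^ 2 ≤ 4 * k ^ 2 * (Fintype.card J * a * D) := by
  have h2 : k ≤ n / (2 * k) := by
    rw [Nat.le_div_iff_mul_le (by omega)]
    calc k * (2 * k) = 2 * k ^ 2 := by ring
      _ ≤ n := hn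
  obtain ⟨p, hp, hp1, hp2⟩ := Nat.exists_prime_lt_and_le_two_mul (n / (2 * k)) (by omega)
  have h3 : k * p ≤ n := by
    calc k * p ≤ k * (2 * (n / (2 * k))) := Nat.mul_le_mul_left _ hp2
      _ = 2 * k * (n / (2 * k)) := by ring
      _ ≤ n := Nat.mul_div_le n (2 * k)
  have h4 := compress hp (by omega) h3 D a y hy hA F h0 h1
  have h5 : n ≤ 2 * k * p := by
    have h6 := Nat.lt_mul_div_succ n (show 0 < 2 * k by omega)
    calc n ≤ 2 * k * (n / (2 * k) + 1) := h6.le
      _ ≤ 2 * k * p := Nat.mul_le_mul_left _ hp1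
  calc n ^ 2 ≤ (2 * k * p) ^ 2 := Nat.pow_le_pow_left h5 2
    _ = 4 * k ^ 2 * p ^ 2 := by ring
    _ ≤ _ := Nat.mul_le_mul_left _ h4

end Pool.Agent.U286.LD
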