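import Pool.Agent.U286.LD.Lines

set_option autoImplicit false

/-! # Reductions to log-SAT whose output bits have small degree -/

namespace Pool.Agent.U286.LD

open Finset Filter Pool.Agent.R562.QH

/-- deterministic reductions have large degree -/
theorem reduction_bound {K : Type} [Field K] {n k d Q v D : ℕ} (hk : 2 ≤ k) (hn : 2 * k ^ 2 ≤ n)
    (h : HasReduction K n k d Q v D) : n ^ 2 ≤ 4 * k ^ 2 * (Q * (2 * v + 1) ^ d * D) := by
  classical
  obtain ⟨R, ev, h1, h2⟩ := h
  have hF : ∀ x : Pairs n → Bool,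
      (fun i : Fin Q => decide (Sat fun c : Clause v d =>
        decide ((if R x (i, c) = true then (1 : K) else 0) = 1))) =
      fun i => decide (Sat fun c => R x (i, c)) := by
    intro x
    funext i
    have : (fun c : Clause v d => decide ((if R x (i, c) = true then (1 : K) else 0) = 1)) =
        fun c => R x (i, c) := by
      funext c
      cases hR : R x (i, c) <;> simp
    rw [this]
  have h3 := compress' (K := K) (show 1 ≤ k by omega) hn (J := Fin Q × Clause v d) D 1
    (fun j x => if R x j = true then (1 : K) else 0) h1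
    (fun j => ⟨{0, 1}, Finset.card_le_two, fun x => by
      by_cases h : R x j = true
      · simp [h]
      · simp [h]⟩)
    (fun y => ev fun i => decide (Sat fun c : Clause v d => decide (y (i, c) = 1)))
    (by
      show ev (fun i : Fin Q => decide (Sat fun c : Clause v d =>
        decide ((if R (empt n) (i, c) = true then (1 : K) else 0) = 1))) = false
      rw [hF]
      have h4 := h2 (empt n) (Or.inr rfl)
      rw [Bool.eq_false_iff, Ne, h4]
      exact fun h => h (empty_free hk))
    (by
      intro x hx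
      show ev (fun i : Fin Q => decide (Sat fun c : Clause v d =>
        decide ((if R x (i, c) = true then (1 : K) else 0) = 1))) = true
      rw [hF]
      exact (h2 x (Or.inl hx)).2 hx)
  rw [Fintype.card_prod, Fintype.card_fin, card_clause, mul_one] at h3
  exact h3

/-- asymptotic form -/
theorem reduction_asy (f g : ℕ → ℕ) (c d k : ℕ) (hk : 2 ≤ k) (ε : ℝ) (hε : 0 < ε) :
    ∀ᶠ n : ℕ in atTop, ∀ (K : Type) [Field K] (Q v D : ℕ), v ≤ g k * (Nat.log 2 (f k * n ^ c) + 1) →
      HasReduction K n k d Q v D → (n : ℝ) ^ (2 - ε) ≤ (Q * D : ℕ) := by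
  filter_upwards [few_clauses ε hε d (f k) (g k) c (4 * (k : ℝ) ^ 2),
    eventually_ge_atTop (2 * k ^ 2)] with n h1 h2 K _ Q v D hv h
  have h3 := h1 v hv
  have h4 := reduction_bound hk h2 h
  have hn0 : 0 < n := by
    have : 0 < 2 * k ^ 2 := by positivity
    omega
  have hn : (0 : ℝ) < n := by exact_mod_cast hn0
  have h5 : (n : ℝ) ^ 2 ≤ 4 * (k : ℝ) ^ 2 * (Q * (2 * v + 1) ^ d * D) := by exact_mod_cast h4
  have h6 : (n : ℝ) ^ 2 ≤ (n : ℝ) ^ ε * (Q * D : ℕ) := by
    calc (n : ℝ) ^ 2 ≤ 4 * (k : ℝ) ^ 2 * (Q * (2 * v + 1) ^ d * D) := h5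
      _ = (4 * (k : ℝ) ^ 2 * (2 * v + 1) ^ d) * (Q * D : ℕ) := by push_cast; ring
      _ ≤ _ := mul_le_mul_of_nonneg_right h3 (Nat.cast_nonneg _)
  rw [Real.rpow_sub hn, Real.rpow_two, div_le_iff₀ (Real.rpow_pos_of_pos hn ε), mul_comm]
  exact h6

/-- functions of few bits have small degree -/
theorem deg_of_junta {K : Type} [Field K] {ι : Type} {D : ℕ} {f : (ι → Bool) → K}
    (h : Junta D f) : Deg K D f := ⟨1, fun _ => f, fun _ => h, fun x => by simp⟩

/-- the empty clause -/
def noLit (v d : ℕ) : Clause v d := fun _ => none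

open Classical in
theorem sat_noLit (v d : ℕ) (b : Bool) :
    (Sat fun c : Clause v d => if c = noLit v d then b else false) ↔ b = false := by
  constructor
  · rintro ⟨α, h⟩
    by_contra hb
    have hb' : b = true := by simpa using hb
    obtain ⟨j, l, h1, -⟩ := h (noLit v d) (by simp [hb'])
    simp [noLit] at h1
  · intro hb
    refine ⟨fun _ => true, fun c hc => ?_⟩
    subst hb
    simp at hc

end Pool.Agent.U286.LD
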