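import Mathlib

set_option autoImplicit false

/-! # Zero sums in finite abelian groups

The argument of Alon, Granville and Pomerance for the theorem of van Emde Boas and Kruyswijk. -/

namespace Pool.Agent.U286.LD

open Finset

theorem char_sum {G ι : Type} [AddCommGroup G] (ψ : AddChar G ℂ) (I : Finset ι) (g : ι → G) :
    ψ (∑ i ∈ I, g i) = ∏ i ∈ I, ψ (g i) := by
  classical
  induction I using Finset.induction_on with
  | empty => simp
  | insert a s ha ih => rw [sum_insert ha, prod_insert ha, AddChar.map_add_eq_mul, ih]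

theorem exists_zero_sum {G : Type} [AddCommGroup G] [Fintype G] {m : ℕ} (hm : 0 < m)
    (hG : ∀ g : G, m • g = 0) {ι : Type} [Fintype ι] [DecidableEq ι] (g : ι → G)
    (h : Fintype.card G * (m - 1) ^ Fintype.card ι < m ^ Fintype.card ι) :
    ∃ I : Finset ι, I.Nonempty ∧ ∑ i ∈ I, g i = 0 := by
  classical
  set R : Finset ℂ := Polynomial.nthRootsFinset m (1 : ℂ) with hR
  have hRc : R.card = m := (Complex.isPrimitiveRoot_exp m hm.ne').card_nthRootsFinset
  have hval : ∀ (ψ : AddChar G ℂ) (a : G), ψ a ∈ R := by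
    intro ψ a
    rw [hR, Polynomial.mem_nthRootsFinset hm, ← AddChar.map_nsmul_eq_pow, hG, AddChar.map_zero_eq_one]
  obtain ⟨t, ht, htψ⟩ : ∃ t ∈ Fintype.piFinset (fun _ : ι => R), ∀ ψ : AddChar G ℂ,
      ∃ i, ψ (g i) = t i := by
    by_contra hcon
    push Not at hcon
    have h1 : Fintype.piFinset (fun _ : ι => R) ⊆
        (univ : Finset (AddChar G ℂ)).biUnion fun ψ => Fintype.piFinset fun i => R.erase (ψ (g i)) := by
      intro t ht
      obtain ⟨ψ, hψ⟩ := hcon t ht
      rw [mem_biUnion]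
      refine ⟨ψ, mem_univ _, Fintype.mem_piFinset.2 fun i => mem_erase.2 ⟨(hψ i).symm, ?_⟩⟩
      exact Fintype.mem_piFinset.1 ht i
    have h2 := (card_le_card h1).trans card_biUnion_le
    rw [Fintype.card_piFinset, prod_const, card_univ, hRc] at h2
    have h3 : ∀ ψ ∈ (univ : Finset (AddChar G ℂ)),
        (Fintype.piFinset fun i => R.erase (ψ (g i))).card = (m - 1) ^ Fintype.card ι := by
      intro ψ _
      rw [Fintype.card_piFinset]
      simp only [card_erase_of_mem (hval ψ _), hRc, prod_const, card_univ]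
    rw [Finset.sum_congr rfl h3, sum_const, card_univ, AddChar.card_eq, smul_eq_mul] at h2
    exact absurd h2 (not_le.2 h)
  by_contra hcon
  push Not at hcon
  have h1 : ∑ ψ : AddChar G ℂ, ∏ i, (-ψ (g i) + t i) = 0 := by
    apply Finset.sum_eq_zero
    intro ψ _
    obtain ⟨i, hi⟩ := htψ ψ
    apply Finset.prod_eq_zero (mem_univ i)
    rw [hi]
    ring
  simp only [Finset.prod_add] at h1
  rw [Finset.sum_comm] at h1
  have h2 : ∀ I ∈ (univ : Finset ι).powerset, I ≠ ∅ →
      ∑ ψ : AddChar G ℂ, (∏ i ∈ I, -ψ (g i)) * ∏ i ∈ univ \ I, t i = 0 := by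
    intro I _ hI
    have h3 : ∀ ψ : AddChar G ℂ, (∏ i ∈ I, -ψ (g i)) * ∏ i ∈ univ \ I, t i =
        ((-1) ^ I.card * ∏ i ∈ univ \ I, t i) * ψ (∑ i ∈ I, g i) := by
      intro ψ
      rw [char_sum, Finset.prod_neg]
      ring
    simp only [h3]
    rw [← Finset.mul_sum, AddChar.sum_apply_eq_ite, if_neg, mul_zero]
    exact hcon I (nonempty_iff_ne_empty.2 hI)
  rw [Finset.sum_eq_single_of_mem ∅ (empty_mem_powerset _) h2] at h1
  simp only [prod_empty, one_mul, sdiff_empty, sum_const, card_univ, AddChar.card_eq] at h1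
  rw [nsmul_eq_mul, mul_eq_zero] at h1
  rcases h1 with h1 | h1
  · have : (Fintype.card G : ℂ) ≠ 0 := by
      exact_mod_cast Fintype.card_ne_zero
    exact this h1
  · rw [Finset.prod_eq_zero_iff] at h1
    obtain ⟨i, -, hi⟩ := h1
    have h4 := Fintype.mem_piFinset.1 ht i
    rw [hR, Polynomial.mem_nthRootsFinset hm, hi, zero_pow hm.ne'] at h4
    exact zero_ne_one h4

/-- logarithmic form -/
theorem exists_zero_sum_log {G : Type} [AddCommGroup G] [Fintype G] {m : ℕ} (hm : 2 ≤ m)
    (hG : ∀ g : G, m • g = 0) {ι : Type} [Fintype ι] [DecidableEq ι] (g : ι → G)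
    (h : m * Real.log (Fintype.card G) < Fintype.card ι) :
    ∃ I : Finset ι, I.Nonempty ∧ ∑ i ∈ I, g i = 0 := by
  apply exists_zero_sum (show 0 < m by omega) hG g
  have hm0 : (0 : ℝ) < m := by exact_mod_cast (show 0 < m by omega)
  have hm1 : (0 : ℝ) < (m : ℝ) - 1 := by
    have : (2 : ℝ) ≤ m := by exact_mod_cast hm
    linarith
  have hc : (0 : ℝ) < Fintype.card G := by exact_mod_cast Fintype.card_pos
  have h1 : Real.log (((m : ℝ) - 1) / m) ≤ -(1 / m) := by
    have h2 := Real.log_le_sub_one_of_pos (show 0 < ((m : ℝ) - 1) / m by positivity)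
    have h3 : ((m : ℝ) - 1) / m - 1 = -(1 / m) := by field_simp; ring
    linarith
  have h2 : Real.log (Fintype.card G) + Fintype.card ι * Real.log (((m : ℝ) - 1) / m) < 0 := by
    have h3 : (Fintype.card ι : ℝ) * Real.log (((m : ℝ) - 1) / m) ≤ Fintype.card ι * (-(1 / m)) :=
      mul_le_mul_of_nonneg_left h1 (Nat.cast_nonneg _)
    have h4 : Real.log (Fintype.card G) < Fintype.card ι / m := by
      rw [lt_div_iff₀ hm0, mul_comm]
      exact h
    have h5 : (Fintype.card ι : ℝ) * (-(1 / m)) = -(Fintype.card ι / m) := by ring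
    linarith
  have h3 : (Fintype.card G : ℝ) * (((m : ℝ) - 1) / m) ^ Fintype.card ι < 1 := by
    rw [← Real.log_neg_iff (by positivity), Real.log_mul hc.ne' (by positivity), Real.log_pow]
    exact h2
  rw [div_pow, mul_div_assoc', div_lt_one (by positivity)] at h3
  have h4 : ((m - 1 : ℕ) : ℝ) = (m : ℝ) - 1 := by
    rw [Nat.cast_sub (by omega), Nat.cast_one]
  rw [← h4] at h3
  exact_mod_cast h3

end Pool.Agent.U286.LD
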