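import Pool.Agent.U286.LD.Main
import Pool.Agent.U286.LD.Zero

set_option autoImplicit false

/-! # Linear forms modulo composite numbers -/

namespace Pool.Agent.U286.LD

open Finset Filter Pool.Agent.R562.QH

/-- the pairs in a line -/
def pairs (n k p : ℕ) (l : Fin p × Fin p) : Finset (Pairs n) :=
  univ.filter fun e => e.1.1 ∈ line n k p l ∧ e.1.2 ∈ line n k p l

open Classical in
theorem form_uni {n k p m : ℕ} (hp : p.Prime) (hk : k ≤ p) (c : Pairs n → ZMod m)
    (I : Finset (Fin p × Fin p)) :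
    form c (uni n k p fun l => decide (l ∈ I)) = ∑ l ∈ I, ∑ e ∈ pairs n k p l, c e := by
  unfold form
  rw [← Finset.sum_filter, ← Finset.sum_biUnion]
  · refine Finset.sum_congr ?_ fun _ _ => rfl
    ext e
    rw [mem_filter, mem_biUnion]
    unfold uni pairs
    simp only [mem_univ, true_and, decide_eq_true_iff, mem_filter]
  · intro l _ l' _ hll
    rw [Function.onFun, Finset.disjoint_left]
    intro e he he'
    have h1 := (mem_filter.1 he).2
    have h2 := (mem_filter.1 he').2
    exact hll (line_unique hp hk h1.1 h1.2 h2.1 h2.2 (ne_of_lt e.2))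

theorem form_empt {n m : ℕ} (c : Pairs n → ZMod m) : form c (empt n) = 0 := by
  unfold form empt
  simp

/-- compressions of the gap clique problem to linear forms, with a prime -/
theorem compress_mod {n k p m : ℕ} (hp : p.Prime) (hk : k ≤ p) (hkp : k * p ≤ n) (hm : 2 ≤ m)
    {J : Type} [Fintype J] (c : J → Pairs n → ZMod m) (F : (J → ZMod m) → Bool)
    (h0 : F (fun _ => 0) = false)
    (h1 : ∀ x, ¬ (graph x).CliqueFree k → F (fun j => form (c j) x) = true) :
    (p : ℝ) ^ 2 ≤ m * Real.log m * Fintype.card J := by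
  classical
  have : NeZero m := ⟨by omega⟩
  by_contra hcon
  push Not at hcon
  obtain ⟨I, hI, hI0⟩ := exists_zero_sum_log (G := J → ZMod m) hm
    (fun g => by
      funext j
      show m • g j = 0
      rw [nsmul_eq_mul, ZMod.natCast_self, zero_mul])
    (ι := Fin p × Fin p) (fun l j => ∑ e ∈ pairs n k p l, c j e) (by
      rw [Fintype.card_fun, ZMod.card, Fintype.card_prod, Fintype.card_fin, Nat.cast_pow,
        Real.log_pow]
      push_cast
      calc (m : ℝ) * (Fintype.card J * Real.log m) = m * Real.log m * Fintype.card J := by ring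
        _ < (p : ℝ) ^ 2 := hcon
        _ = p * p := by ring)
  obtain ⟨l, hl⟩ := hI
  have h2 := h1 (uni n k p fun l => decide (l ∈ I))
    (uni_clique hp.pos hkp (l := l) (decide_eq_true hl))
  have h3 : (fun j => form (c j) (uni n k p fun l => decide (l ∈ I))) = fun _ => 0 := by
    funext j
    rw [form_uni hp hk]
    have h4 := congrFun hI0 j
    rw [Finset.sum_apply] at h4
    exact h4
  rw [h3, h0] at h2
  exact Bool.noConfusion h2

/-- compressions of the gap clique problem to linear forms -/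
theorem compress_mod' {n k m : ℕ} (hk : 1 ≤ k) (hn : 2 * k ^ 2 ≤ n) (hm : 2 ≤ m)
    {J : Type} [Fintype J] (c : J → Pairs n → ZMod m) (F : (J → ZMod m) → Bool)
    (h0 : F (fun _ => 0) = false)
    (h1 : ∀ x, ¬ (graph x).CliqueFree k → F (fun j => form (c j) x) = true) :
    (n : ℝ) ^ 2 ≤ 4 * k ^ 2 * (m * Real.log m * Fintype.card J) := by
  have h2 : k ≤ n / (2 * k) := by
    rw [Nat.le_div_iff_mul_le (by omega)]
    calc k * (2 * k) = 2 * k ^ 2 := by ring
      _ ≤ n := hn
  obtain ⟨p, hp, hp1, hp2⟩ := Nat.exists_prime_lt_and_le_two_mul (n / (2 * k)) (by omega)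
  have h3 : k * p ≤ n := by
    calc k * p ≤ k * (2 * (n / (2 * k))) := Nat.mul_le_mul_left _ hp2
      _ = 2 * k * (n / (2 * k)) := by ring
      _ ≤ n := Nat.mul_div_le n (2 * k)
  have h4 := compress_mod hp (by omega) h3 hm c F h0 h1
  have h5 : n ≤ 2 * k * p := by
    have h6 := Nat.lt_mul_div_succ n (show 0 < 2 * k by omega)
    calc n ≤ 2 * k * (n / (2 * k) + 1) := h6.le
      _ ≤ 2 * k * p := Nat.mul_le_mul_left _ hp1
  have h7 : (n : ℝ) ≤ 2 * k * p := by exact_mod_cast h5
  calc (n : ℝ) ^ 2 ≤ (2 * k * p : ℝ) ^ 2 := pow_le_pow_left₀ (Nat.cast_nonneg _) h7 2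
    _ = 4 * (k : ℝ) ^ 2 * (p : ℝ) ^ 2 := by ring
    _ ≤ _ := mul_le_mul_of_nonneg_left h4 (by positivity)

/-- reductions with output bits determined by linear forms modulo `m` -/
theorem mod_bound {m n k d Q v : ℕ} (hk : 2 ≤ k) (hn : 2 * k ^ 2 ≤ n) (hm : 2 ≤ m)
    (h : HasModReduction m n k d Q v) :
    (n : ℝ) ^ 2 ≤ 4 * k ^ 2 * (m * Real.log m * (Q * (2 * v + 1) ^ d : ℕ)) := by
  classical
  obtain ⟨R, ev, h1, h2⟩ := h
  choose c A hA using h1
  have hF : ∀ x, (fun i : Fin Q => decide (Sat fun cl : Clause v d =>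
      A (i, cl) (form (c (i, cl)) x))) = fun i => decide (Sat fun cl => R x (i, cl)) := by
    intro x
    simp only [hA]
  have h3 := compress_mod' (show 1 ≤ k by omega) hn hm (J := Fin Q × Clause v d) c
    (fun y => ev fun i => decide (Sat fun cl : Clause v d => A (i, cl) (y (i, cl))))
    (by
      have h4 := h2 (empt n) (Or.inr rfl)
      rw [← hF] at h4
      simp only [form_empt] at h4
      rw [Bool.eq_false_iff, Ne, h4]
      exact fun h => h (empty_free hk))
    (by
      intro x hx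
      show ev (fun i : Fin Q => decide (Sat fun cl : Clause v d =>
        A (i, cl) (form (c (i, cl)) x))) = true
      rw [hF]
      exact (h2 x (Or.inl hx)).2 hx)
  rw [Fintype.card_prod, Fintype.card_fin, card_clause] at h3
  exact h3

/-- asymptotic form -/
theorem mod_asy (f g : ℕ → ℕ) (c d k : ℕ) (hk : 2 ≤ k) (ε : ℝ) (hε : 0 < ε) :
    ∀ᶠ n : ℕ in atTop, ∀ (m Q v : ℕ), 2 ≤ m → v ≤ g k * (Nat.log 2 (f k * n ^ c) + 1) →
      HasModReduction m n k d Q v → (n : ℝ) ^ (2 - ε) ≤ m * Real.log m * Q := by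
  filter_upwards [few_clauses ε hε d (f k) (g k) c (4 * (k : ℝ) ^ 2),
    eventually_ge_atTop (2 * k ^ 2)] with n h1 h2 m Q v hm hv h
  have h3 := h1 v hv
  have h4 := mod_bound hk h2 hm h
  have hn0 : 0 < n := by
    have : 0 < 2 * k ^ 2 := by positivity
    omega
  have hn : (0 : ℝ) < n := by exact_mod_cast hn0
  have hlog : 0 ≤ Real.log m := Real.log_natCast_nonneg m
  have h6 : (n : ℝ) ^ 2 ≤ (n : ℝ) ^ ε * (m * Real.log m * Q) := by
    calc (n : ℝ) ^ 2 ≤ 4 * k ^ 2 * (m * Real.log m * (Q * (2 * v + 1) ^ d : ℕ)) := h4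
      _ = (4 * (k : ℝ) ^ 2 * (2 * v + 1) ^ d) * (m * Real.log m * Q) := by push_cast; ring
      _ ≤ _ := mul_le_mul_of_nonneg_right h3 (by positivity)
  rw [Real.rpow_sub hn, Real.rpow_two, div_le_iff₀ (Real.rpow_pos_of_pos hn ε), mul_comm]
  exact h6

end Pool.Agent.U286.LD
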