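import Pool.Agent.U286.LD.Mod

set_option autoImplicit false

/-! # Reductions which detect whether there is an edge -/

namespace Pool.Agent.U286.LD

open Finset Filter Pool.Agent.R562.QH

theorem card_pairs_le (n : ℕ) : Fintype.card (Pairs n) ≤ n ^ 2 := by
  have h := Fintype.card_le_of_injective (fun e : Pairs n => e.1) Subtype.val_injective
  rw [Fintype.card_prod, Fintype.card_fin] at h
  calc _ ≤ n * n := h
    _ = n ^ 2 := by ring

/-- blocks of pairs -/
theorem exists_blocks (n Q D : ℕ) (h : n ^ 2 ≤ Q * D) :
    ∃ blk : Fin Q → Finset (Pairs n), (∀ i, (blk i).card ≤ D) ∧ ∀ e, ∃ i, e ∈ blk i := by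
  classical
  have h' : Fintype.card (Pairs n) ≤ Q * D := (card_pairs_le n).trans h
  rcases Nat.eq_zero_or_pos D with hD | hD
  · subst hD
    have h2 : Fintype.card (Pairs n) = 0 := by simpa using h'
    have hE := Fintype.card_eq_zero_iff.1 h2
    exact ⟨fun _ => ∅, fun _ => by simp, fun e => (hE.false e).elim⟩
  set β : Pairs n → ℕ := fun e => (Fintype.equivFin (Pairs n) e : ℕ) with hβ
  have hinj : Function.Injective β := fun e e' h =>
    (Fintype.equivFin (Pairs n)).injective (Fin.ext h)
  refine ⟨fun i => univ.filter fun e => β e / D = i, fun i => ?_, fun e => ?_⟩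
  · have h1 : (univ.filter fun e => β e / D = i).card ≤
        (Finset.Ico ((i : ℕ) * D) ((i : ℕ) * D + D)).card := by
      refine card_le_card_of_injOn β ?_ hinj.injOn
      intro e he
      have h2 : β e / D = i := (mem_filter.1 (mem_coe.1 he)).2
      have h3 := Nat.div_add_mod (β e) D
      have h4 := Nat.mod_lt (β e) hD
      rw [h2, Nat.mul_comm D] at h3
      rw [mem_coe, mem_Ico]
      constructor
      · exact Nat.le.intro h3
      · exact h3 ▸ Nat.add_lt_add_left h4 _
    simpa using h1
  · have hlt : β e / D < Q := by
      rw [Nat.div_lt_iff_lt_mul hD]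
      exact (Fin.is_lt _).trans_le h'
    exact ⟨⟨β e / D, hlt⟩, mem_filter.2 ⟨mem_univ _, rfl⟩⟩

open Classical in
/-- the evaluation of the answers -/
theorem answers {n k d Q v : ℕ} (hk : 2 ≤ k) (blk : Fin Q → Finset (Pairs n))
    (hblk : ∀ e, ∃ i, e ∈ blk i) (b : Fin Q → (Pairs n → Bool) → Bool)
    (hb : ∀ i x, b i x = true ↔ ∀ e ∈ blk i, x e = false) (x : Pairs n → Bool)
    (hx : ¬ (graph x).CliqueFree k ∨ x = empt n) :
    ((fun q : Fin Q → Bool => decide (∃ i, q i = true)) (fun i => decide (Sat fun c : Clause v d =>
      if c = noLit v d then b i x else false)) = true ↔ ¬ (graph x).CliqueFree k) := by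
  have h1 : (∃ i : Fin Q, decide (Sat fun c : Clause v d =>
      if c = noLit v d then b i x else false) = true) ↔ x ≠ empt n := by
    constructor
    · rintro ⟨i, hi⟩ rfl
      rw [decide_eq_true_iff, sat_noLit] at hi
      have h2 : b i (empt n) = true := (hb i _).2 fun e _ => rfl
      rw [h2] at hi
      exact Bool.noConfusion hi
    · intro hne
      obtain ⟨e, he⟩ : ∃ e, x e ≠ empt n e := Function.ne_iff.1 hne
      have hx1 : x e = true := by
        cases h : x e
        · exact absurd h he
        · rfl
      obtain ⟨i, hi⟩ := hblk e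
      refine ⟨i, ?_⟩
      rw [decide_eq_true_iff, sat_noLit]
      by_contra h2
      have h3 := (hb i x).1 (by simpa using h2) e hi
      rw [hx1] at h3
      exact Bool.noConfusion h3
  show decide _ = true ↔ _
  rw [decide_eq_true_iff, h1]
  constructor
  · intro h2
    rcases hx with h3 | h3
    · exact h3
    · exact absurd h3 h2
  · rintro h2 rfl
    exact h2 (empty_free hk)

/-- reductions of small degree -/
theorem upper_field (K : Type) [Field K] (n k d Q v D : ℕ) (hk : 2 ≤ k) (h : n ^ 2 ≤ Q * D) :
    HasReduction K n k d Q v D := by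
  classical
  obtain ⟨blk, h1, h2⟩ := exists_blocks n Q D h
  refine ⟨fun x j => if j.2 = noLit v d then decide (∀ e ∈ blk j.1, x e = false) else false,
    fun q => decide (∃ i, q i = true), fun j => ?_, fun x hx => ?_⟩
  · apply deg_of_junta
    refine ⟨blk j.1, h1 j.1, fun x y hxy => ?_⟩
    have h3 : (∀ e ∈ blk j.1, x e = false) ↔ ∀ e ∈ blk j.1, y e = false :=
      forall₂_congr fun e he => by rw [hxy e he]
    simp only [h3]
  · exact answers hk blk h2 (fun i x => decide (∀ e ∈ blk i, x e = false))
      (fun i x => decide_eq_true_iff) x hx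

/-- reductions by linear forms -/
theorem upper_mod (m n k d Q v : ℕ) (hk : 2 ≤ k) (hm : 2 ≤ m) (h : n ^ 2 ≤ Q * (m - 1)) :
    HasModReduction m n k d Q v := by
  classical
  obtain ⟨blk, h1, h2⟩ := exists_blocks n Q (m - 1) h
  refine ⟨fun x j => if j.2 = noLit v d then
      decide (form (m := m) (fun e => if e ∈ blk j.1 then 1 else 0) x = 0) else false,
    fun q => decide (∃ i, q i = true), fun j => ?_, fun x hx => ?_⟩
  · refine ⟨fun e => if e ∈ blk j.1 then 1 else 0,
      fun s => if j.2 = noLit v d then decide (s = 0) else false, fun x => rfl⟩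
  · refine answers hk blk h2
      (fun i x => decide (form (m := m) (fun e => if e ∈ blk i then 1 else 0) x = 0))
      (fun i x => ?_) x hx
    rw [decide_eq_true_iff]
    have h3 : form (m := m) (fun e => if e ∈ blk i then 1 else 0) x =
        (((blk i).filter fun e => x e = true).card : ZMod m) := by
      unfold form
      rw [Finset.card_filter, Nat.cast_sum, ← Finset.sum_filter, Finset.sum_filter]
      rw [← Finset.sum_filter_add_sum_filter_not univ (fun e => e ∈ blk i)]
      have h4 : ∑ e ∈ univ.filter (fun e => e ∉ blk i),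
          (if x e = true then (if e ∈ blk i then (1 : ZMod m) else 0) else 0) = 0 := by
        apply Finset.sum_eq_zero
        intro e he
        rw [if_neg (mem_filter.1 he).2]
        simp
      rw [h4, add_zero]
      have h5 : univ.filter (fun e => e ∈ blk i) = blk i := by
        ext e
        simp
      rw [h5]
      refine Finset.sum_congr rfl fun e he => ?_
      rw [if_pos he]
      split_ifs <;> simp
    rw [h3, ZMod.natCast_eq_zero_iff]
    have h6 : ((blk i).filter fun e => x e = true).card < m := by
      have := (card_filter_le (blk i) fun e => x e = true).trans (h1 i)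
      omega
    constructor
    · intro h7 e he
      have h8 := Nat.eq_zero_of_dvd_of_lt h7 h6
      rw [card_eq_zero] at h8
      have h9 := Finset.filter_eq_empty_iff.1 h8 he
      simpa using h9
    · intro h7
      have h8 : ((blk i).filter fun e => x e = true) = ∅ :=
        Finset.filter_eq_empty_iff.2 fun e he => by rw [h7 e he]; simp
      rw [h8, card_empty]
      exact dvd_zero m

end Pool.Agent.U286.LD
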